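import Mathlib

/-!
# Two of the forms `Q_{α,m}`, `Q_{β,n}` that are equivalent

Let `K = ℚ(√41)`, `α = 13 + 2 √41` and `β = (173 + 27 √41) / 2`.  Both are indecomposable, `N(α) = 5`
and `N(β) = 10`, so the pair `(α, β)` is admissible.  The forms `α x² + 4 x y + α' y²` and
`β x² + 6 x y + β' y²` are equivalent over the ring of integers of `K`.
-/

set_option autoImplicit false

open NumberField

namespace Pool.Agent.Results.MP_d6b6f7_nt.EquivalentForms

/-- `x` is totally positive: it is positive under every real embedding of `K`. -/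
def TotallyPositive {K : Type} [Field K] (x : K) : Prop := ∀ φ : K →+* ℝ, 0 < φ x

/-- `x` is indecomposable: it is totally positive, and it is not the sum of two totally positive
integers. -/
def Indecomposable {K : Type} [Field K] (x : 𝓞 K) : Prop :=
  TotallyPositive (x : K) ∧
    ∀ y z : 𝓞 K, TotallyPositive (y : K) → TotallyPositive (z : K) → x ≠ y + z

/-- The pair `(α, β)` is admissible, where `σ` is the nontrivial automorphism of `𝓞 K`. -/
def Admissible {K : Type} [Field K] (σ : 𝓞 K ≃+* 𝓞 K) (α β : 𝓞 K) : Prop :=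
  Indecomposable α ∧ Indecomposable β ∧ ¬ Associated β α ∧ ¬ Associated β (σ α) ∧
    ∀ η : 𝓞 K, β ≠ α * η ^ 2 ∧ β ≠ σ α * η ^ 2 ∧ α ≠ β * η ^ 2 ∧ α ≠ σ β * η ^ 2

/-- the value `Q_{α,m}(x,y) = α x² + 2 m x y + α' y²` -/
def form {K : Type} [Field K] (σ : 𝓞 K ≃+* 𝓞 K) (α : 𝓞 K) (m : ℤ) (x y : 𝓞 K) : 𝓞 K :=
  α * x ^ 2 + 2 * (m : 𝓞 K) * x * y + σ α * y ^ 2

/-! ### The field `ℚ(√41)` -/

/-- the field `ℚ(√41)` -/
abbrev F : Type := QuadraticAlgebra ℚ 41 0

instance fact41 : Fact (∀ r : ℚ, r ^ 2 ≠ 41 + 0 * r) := by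
  refine ⟨fun r h => ?_⟩
  have h1 : Irrational √(41 : ℝ) := by
    have : Nat.Prime 41 := by norm_num
    exact_mod_cast this.irrational_sqrt
  apply h1
  refine ⟨|r|, ?_⟩
  have h2 : (r : ℝ) ^ 2 = 41 := by
    have : r ^ 2 = 41 := by rw [h]; ring
    exact_mod_cast this
  rw [← h2, Real.sqrt_sq_eq_abs]
  push_cast
  rfl

instance : CharZero F := charZero_of_injective_algebraMap (algebraMap ℚ F).injective

instance : NumberField F where
  to_charZero := inferInstance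
  to_finiteDimensional := by
    have h : Module.Finite ℚ F := QuadraticAlgebra.instFinite 41 0
    convert h

theorem finrank_F : Module.finrank ℚ F = 2 := by
  have h := QuadraticAlgebra.finrank_eq_two (R := ℚ) 41 0
  convert h

/-- the real embedding that sends `√41` to `s` -/
noncomputable def emb (s : ℝ) (hs : s * s = 41) : F →+* ℝ :=
  (QuadraticAlgebra.lift (R := ℚ) (a := 41) (b := 0) (A := ℝ) ⟨s, by
    rw [hs, zero_smul, add_zero, Rat.smul_def]; norm_num⟩).toRingHom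

theorem emb_apply (s : ℝ) (hs : s * s = 41) (x : F) : emb s hs x = x.re + x.im * s := by
  show (x.re • (1 : ℝ) + x.im • s) = _
  rw [Rat.smul_def, Rat.smul_def, mul_one]

theorem ringHom_apply (φ : F →+* ℝ) : ∃ s : ℝ, s * s = 41 ∧ ∀ x : F, φ x = x.re + x.im * s := by
  refine ⟨φ ⟨0, 1⟩, ?_, fun x => ?_⟩
  · rw [← map_mul]
    have : (⟨0, 1⟩ * ⟨0, 1⟩ : F) = (41 : ℚ) := by
      ext <;> simp [QuadraticAlgebra.re_ofNat, QuadraticAlgebra.im_ofNat]
    rw [this, map_ratCast]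
    norm_num
  · have : x = (x.re : F) + (x.im : F) * ⟨0, 1⟩ := by
      ext <;> simp
    conv_lhs => rw [this]
    rw [map_add, map_mul, map_ratCast, map_ratCast]

theorem totPos_iff (x : F) : TotallyPositive x ↔ 0 < x.re ∧ 41 * x.im ^ 2 < x.re ^ 2 := by
  have hs : √(41 : ℝ) * √41 = 41 := Real.mul_self_sqrt (by norm_num)
  constructor
  · intro h
    have h1 := h (emb √41 hs)
    have h2 := h (emb (-√41) (by rw [neg_mul_neg, hs]))
    rw [emb_apply] at h1 h2
    have h3 : (0 : ℝ) < x.re := by linarith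
    refine ⟨by exact_mod_cast h3, ?_⟩
    have h4 := mul_pos h1 h2
    have h5 : (0 : ℝ) < x.re ^ 2 - 41 * x.im ^ 2 := by
      have e : ((x.re : ℝ) + x.im * √41) * (x.re + x.im * -√41) = x.re ^ 2 - 41 * x.im ^ 2 := by
        have : ((x.re : ℝ) + x.im * √41) * (x.re + x.im * -√41) =
          x.re ^ 2 - (√41 * √41) * x.im ^ 2 := by ring
        rw [this, hs]
      rw [← e]
      exact h4
    have h6 : (0 : ℚ) < x.re ^ 2 - 41 * x.im ^ 2 := by exact_mod_cast h5
    linarith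
  · rintro ⟨h1, h2⟩ φ
    obtain ⟨s, hs, hφ⟩ := ringHom_apply φ
    rw [hφ]
    have h3 : (0 : ℝ) < x.re := by exact_mod_cast h1
    have h4 : 41 * (x.im : ℝ) ^ 2 < x.re ^ 2 := by exact_mod_cast h2
    have h5 : ((x.im : ℝ) * s) ^ 2 < x.re ^ 2 := by
      have : ((x.im : ℝ) * s) ^ 2 = 41 * x.im ^ 2 := by
        rw [mul_pow, pow_two s, hs]; ring
      rw [this]; exact h4
    have h6 := abs_lt_of_sq_lt_sq h5 h3.le
    have h7 := (abs_lt.1 h6).1
    linarith

/-! ### The ring of integers -/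

/-- the conjugation as an automorphism of the field -/
noncomputable def conjF : F ≃+* F := starRingAut

theorem conjF_apply (x : F) : conjF x = ⟨x.re, -x.im⟩ := by
  show star x = _
  ext <;> simp

/-- the conjugation -/
noncomputable def conj : 𝓞 F ≃+* 𝓞 F := RingOfIntegers.mapRingEquiv conjF

theorem coe_conj (x : 𝓞 F) : ((conj x : 𝓞 F) : F) = conjF (x : F) := rfl

theorem cast_re (q : ℚ) : (q : F).re = q := rfl

theorem cast_im (q : ℚ) : (q : F).im = 0 := rfl

theorem isInt_of_integral {q : ℚ} (h : IsIntegral ℤ (q : F)) : ∃ n : ℤ, (n : ℚ) = q := by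
  have h1 : IsIntegral ℤ q := by
    have : (q : F) = algebraMap ℚ F q := (eq_ratCast (algebraMap ℚ F) q).symm
    rw [this] at h
    exact (isIntegral_algebraMap_iff (algebraMap ℚ F).injective).1 h
  obtain ⟨n, hn⟩ := IsIntegrallyClosed.isIntegral_iff.1 h1
  exact ⟨n, by simpa using hn⟩

theorem int_of_41 {q : ℚ} {n : ℤ} (h : 41 * q ^ 2 = n) : ∃ s : ℤ, (s : ℚ) = q := by
  have h1 : IsIntegral ℤ (41 * q) := by
    refine IsIntegral.of_pow (n := 2) (by norm_num) ?_
    have : (41 * q) ^ 2 = ((41 * n : ℤ) : ℚ) := by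
      push_cast
      rw [← h]; ring
    rw [this]
    exact isIntegral_algebraMap
  obtain ⟨k, hk⟩ := IsIntegrallyClosed.isIntegral_iff.1 h1
  have hk' : (k : ℚ) = 41 * q := by simpa using hk
  have h2 : ((k ^ 2 : ℤ) : ℚ) = ((41 * n : ℤ) : ℚ) := by
    push_cast
    rw [hk', ← h]; ring
  have h3 : k ^ 2 = 41 * n := by exact_mod_cast h2
  have h4 : (41 : ℤ) ∣ k := by
    have hp : Prime (41 : ℤ) := by
      rw [Int.prime_iff_natAbs_prime]; norm_num
    exact hp.dvd_of_dvd_pow ⟨n, h3⟩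
  obtain ⟨s, hs⟩ := h4
  refine ⟨s, ?_⟩
  rw [hs] at hk'
  push_cast at hk'
  linarith

/-- the integers of `F` are the elements `(t + s √41) / 2` with `t ^ 2 - 41 s ^ 2` divisible by `4` -/
theorem exists_coords (x : 𝓞 F) : ∃ t s N : ℤ, ((x : F).re = t / 2 ∧ (x : F).im = s / 2) ∧
    t ^ 2 - 41 * s ^ 2 = 4 * N ∧ x * conj x = (N : 𝓞 F) := by
  have hx : IsIntegral ℤ (x : F) := x.isIntegral_coe
  have hc : IsIntegral ℤ (conjF (x : F)) := (conj x).isIntegral_coe
  have e1 : (x : F) + conjF x = ((2 * (x : F).re : ℚ) : F) := by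
    rw [conjF_apply]
    ext
    · rw [cast_re, QuadraticAlgebra.re_add]
      ring
    · rw [cast_im, QuadraticAlgebra.im_add]
      ring
  have e2 : (x : F) * conjF x = (((x : F).re ^ 2 - 41 * (x : F).im ^ 2 : ℚ) : F) := by
    rw [conjF_apply]
    ext
    · rw [cast_re, QuadraticAlgebra.re_mul]
      ring
    · rw [cast_im, QuadraticAlgebra.im_mul]
      ring
  obtain ⟨t, ht⟩ := isInt_of_integral (e1 ▸ hx.add hc)
  obtain ⟨N, hN⟩ := isInt_of_integral (e2 ▸ hx.mul hc)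
  have h3 : 41 * (2 * (x : F).im) ^ 2 = ((t ^ 2 - 4 * N : ℤ) : ℚ) := by
    push_cast
    rw [ht, hN]
    ring
  obtain ⟨s, hs⟩ := int_of_41 h3
  refine ⟨t, s, N, ⟨by linarith, by linarith⟩, ?_, ?_⟩
  · have : ((t ^ 2 - 41 * s ^ 2 : ℤ) : ℚ) = ((4 * N : ℤ) : ℚ) := by
      push_cast
      rw [ht, hs, hN]
      ring
    exact_mod_cast this
  · apply RingOfIntegers.ext
    show (x : F) * conjF (x : F) = ((N : 𝓞 F) : F)
    rw [e2, ← hN]
    simp

/-- the integer `(1 + √41) / 2` -/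
noncomputable def τ : 𝓞 F := ⟨⟨1 / 2, 1 / 2⟩, by
  refine ⟨Polynomial.X ^ 2 - Polynomial.X - Polynomial.C 10, by monicity!, ?_⟩
  simp only [Polynomial.eval₂_sub, Polynomial.eval₂_pow, Polynomial.eval₂_X, Polynomial.eval₂_C]
  have h : (algebraMap ℤ F) 10 = ((10 : ℚ) : F) := by
    simp
  rw [h, pow_two]
  ext
  · simp only [QuadraticAlgebra.re_sub, QuadraticAlgebra.re_mul, cast_re,
      QuadraticAlgebra.re_zero]
    norm_num
  · simp only [QuadraticAlgebra.im_sub, QuadraticAlgebra.im_mul, cast_im,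
      QuadraticAlgebra.im_zero]
    norm_num⟩

theorem coe_τ : (τ : F) = ⟨1 / 2, 1 / 2⟩ := rfl

theorem coe_lin (a b : ℤ) : (((a : 𝓞 F) + (b : 𝓞 F) * τ : 𝓞 F) : F) = ⟨a + b / 2, b / 2⟩ := by
  have h1 : (((a : 𝓞 F) + (b : 𝓞 F) * τ : 𝓞 F) : F) = ((a : ℚ) : F) + ((b : ℚ) : F) * τ := by
    simp
  rw [h1, coe_τ]
  ext
  · rw [QuadraticAlgebra.re_add, QuadraticAlgebra.re_mul, cast_re, cast_re, cast_im]
    ring
  · rw [QuadraticAlgebra.im_add, QuadraticAlgebra.im_mul, cast_im, cast_re, cast_im]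
    ring

theorem τ_sq : τ ^ 2 = τ + 10 := by
  apply RingOfIntegers.ext
  have h1 : ((τ ^ 2 : 𝓞 F) : F) = (τ : F) * τ := by simp [pow_two]
  have h2 : ((τ + 10 : 𝓞 F) : F) = (τ : F) + ((10 : ℚ) : F) := by
    have h3 := map_add (algebraMap (𝓞 F) F) τ 10
    rw [map_ofNat] at h3
    have h4 : ((10 : ℚ) : F) = 10 := by simp
    rw [h4]
    exact h3
  rw [h1, h2, coe_τ]
  ext
  · rw [QuadraticAlgebra.re_add, QuadraticAlgebra.re_mul, cast_re]
    norm_num
  · rw [QuadraticAlgebra.im_add, QuadraticAlgebra.im_mul, cast_im]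
    norm_num

theorem conj_τ : conj τ = 1 - τ := by
  apply RingOfIntegers.ext
  have h2 : ((1 - τ : 𝓞 F) : F) = ((1 : ℚ) : F) - (τ : F) := by simp
  rw [coe_conj, conjF_apply, h2, coe_τ]
  ext
  · rw [QuadraticAlgebra.re_sub, cast_re]
    norm_num
  · rw [QuadraticAlgebra.im_sub, cast_im]
    norm_num

/-- `α = 13 + 2 √41` -/
noncomputable def α : 𝓞 F := ((11 : ℤ) : 𝓞 F) + ((4 : ℤ) : 𝓞 F) * τ

/-- `β = (173 + 27 √41) / 2` -/
noncomputable def β : 𝓞 F := ((73 : ℤ) : 𝓞 F) + ((27 : ℤ) : 𝓞 F) * τ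

theorem coe_α : (α : F) = ⟨13, 2⟩ := by
  rw [α, coe_lin]
  norm_num

theorem coe_β : (β : F) = ⟨173 / 2, 27 / 2⟩ := by
  rw [β, coe_lin]
  norm_num

/-- the coordinates of a summand of a totally positive integer `(A + B √41) / 2` -/
theorem coords_of_sum {x y z : 𝓞 F} {A B : ℤ} (hre : (x : F).re = A / 2) (him : (x : F).im = B / 2)
    (hy : TotallyPositive (y : F)) (hz : TotallyPositive (z : F)) (h : x = y + z) :
    ∃ t s N : ℤ, 0 < t ∧ 41 * s ^ 2 < t ^ 2 ∧ t < A ∧ 41 * (B - s) ^ 2 < (A - t) ^ 2 ∧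
      t ^ 2 - 41 * s ^ 2 = 4 * N := by
  obtain ⟨t, s, N, ⟨h1, h2⟩, h3, -⟩ := exists_coords y
  rw [totPos_iff] at hy hz
  have e1 : (z : F).re = (A - t) / 2 := by
    have : (x : F).re = (y : F).re + (z : F).re := by
      rw [h]; rfl
    rw [hre, h1] at this
    linarith
  have e2 : (z : F).im = (B - s) / 2 := by
    have : (x : F).im = (y : F).im + (z : F).im := by
      rw [h]; rfl
    rw [him, h2] at this
    linarith
  rw [h1, h2] at hy
  rw [e1, e2] at hz
  refine ⟨t, s, N, ?_, ?_, ?_, ?_, h3⟩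
  · have : (0 : ℚ) < t := by linarith [hy.1]
    exact_mod_cast this
  · have : 41 * (s : ℚ) ^ 2 < (t : ℚ) ^ 2 := by nlinarith [hy.2]
    exact_mod_cast this
  · have : (t : ℚ) < A := by linarith [hz.1]
    exact_mod_cast this
  · have : 41 * ((B : ℚ) - s) ^ 2 < (A - t : ℚ) ^ 2 := by nlinarith [hz.2]
    exact_mod_cast this

theorem check_α : ∀ t ∈ Finset.range 26, ∀ s ∈ Finset.range 9,
    ¬ (0 < t ∧ 41 * ((s : ℤ) - 4) ^ 2 < (t : ℤ) ^ 2 ∧
      41 * (4 - ((s : ℤ) - 4)) ^ 2 < (26 - (t : ℤ)) ^ 2 ∧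
      ((t : ℤ) ^ 2 - 41 * ((s : ℤ) - 4) ^ 2) % 4 = 0) := by
  decide +kernel

theorem check_β : ∀ t ∈ Finset.range 173, ∀ s ∈ Finset.range 60,
    ¬ (0 < t ∧ 41 * ((s : ℤ) - 30) ^ 2 < (t : ℤ) ^ 2 ∧
      41 * (27 - ((s : ℤ) - 30)) ^ 2 < (173 - (t : ℤ)) ^ 2 ∧
      ((t : ℤ) ^ 2 - 41 * ((s : ℤ) - 30) ^ 2) % 4 = 0) := by
  decide +kernel

theorem indecomposable_α : Indecomposable α := by
  constructor
  · rw [totPos_iff, coe_α]
    norm_num
  · intro y z hy hz h
    obtain ⟨t, s, N, h1, h2, h3, h4, h5⟩ := coords_of_sum (A := 26) (B := 4)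
      (by rw [coe_α]; norm_num) (by rw [coe_α]; norm_num) hy hz h
    have hs1 : -4 ≤ s := by nlinarith
    have hs2 : s ≤ 4 := by nlinarith
    have := check_α t.toNat (Finset.mem_range.2 (by omega)) (s + 4).toNat
      (Finset.mem_range.2 (by omega))
    apply this
    have e1 : ((t.toNat : ℕ) : ℤ) = t := Int.toNat_of_nonneg h1.le
    have e2 : (((s + 4).toNat : ℕ) : ℤ) = s + 4 := Int.toNat_of_nonneg (by omega)
    rw [e1, e2]
    refine ⟨by omega, ?_, ?_, ?_⟩
    · rw [show s + 4 - 4 = s by ring]; exact h2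
    · rw [show s + 4 - 4 = s by ring]; exact h4
    · rw [show s + 4 - 4 = s by ring]; omega

theorem indecomposable_β : Indecomposable β := by
  constructor
  · rw [totPos_iff, coe_β]
    norm_num
  · intro y z hy hz h
    obtain ⟨t, s, N, h1, h2, h3, h4, h5⟩ := coords_of_sum (A := 173) (B := 27)
      (by rw [coe_β]; norm_num) (by rw [coe_β]; norm_num) hy hz h
    have hs1 : -27 ≤ s := by nlinarith
    have hs2 : s ≤ 27 := by nlinarith
    have := check_β t.toNat (Finset.mem_range.2 (by omega)) (s + 30).toNat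
      (Finset.mem_range.2 (by omega))
    apply this
    have e1 : ((t.toNat : ℕ) : ℤ) = t := Int.toNat_of_nonneg h1.le
    have e2 : (((s + 30).toNat : ℕ) : ℤ) = s + 30 := Int.toNat_of_nonneg (by omega)
    rw [e1, e2]
    refine ⟨by omega, ?_, ?_, ?_⟩
    · rw [show s + 30 - 30 = s by ring]; exact h2
    · rw [show s + 30 - 30 = s by ring]; exact h4
    · rw [show s + 30 - 30 = s by ring]; omega

theorem conj_α : conj α = ((15 : ℤ) : 𝓞 F) + ((-4 : ℤ) : 𝓞 F) * τ := by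
  rw [α, map_add, map_mul, map_intCast, map_intCast, conj_τ]
  push_cast
  ring

theorem conj_β : conj β = ((100 : ℤ) : 𝓞 F) + ((-27 : ℤ) : 𝓞 F) * τ := by
  rw [β, map_add, map_mul, map_intCast, map_intCast, conj_τ]
  push_cast
  ring

theorem norm_α : α * conj α = ((5 : ℤ) : 𝓞 F) := by
  rw [conj_α, α]
  push_cast
  linear_combination (-16 : 𝓞 F) * τ_sq

theorem norm_β : β * conj β = ((10 : ℤ) : 𝓞 F) := by
  rw [conj_β, β]
  push_cast
  linear_combination (-729 : 𝓞 F) * τ_sq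

theorem conj_conj (x : 𝓞 F) : conj (conj x) = x := by
  apply RingOfIntegers.ext
  rw [coe_conj, coe_conj, conjF_apply, conjF_apply]
  ext <;> simp

theorem exists_norm (x : 𝓞 F) : ∃ N : ℤ, x * conj x = (N : 𝓞 F) := by
  obtain ⟨-, -, N, -, -, h⟩ := exists_coords x
  exact ⟨N, h⟩

theorem norm_mul {x y : 𝓞 F} {a b : ℤ} (hx : x * conj x = a) (hy : y * conj y = b) :
    (x * y) * conj (x * y) = ((a * b : ℤ) : 𝓞 F) := by
  rw [map_mul]
  push_cast
  rw [← hx, ← hy]
  ring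

theorem norm_conj {x : 𝓞 F} {a : ℤ} (hx : x * conj x = a) : conj x * conj (conj x) = a := by
  rw [conj_conj, mul_comm, hx]

theorem norm_unique {x : 𝓞 F} {a b : ℤ} (ha : x * conj x = a) (hb : x * conj x = b) : a = b := by
  rw [ha] at hb
  exact_mod_cast hb

theorem not_associated {x y : 𝓞 F} (hx : x * conj x = ((10 : ℤ) : 𝓞 F))
    (hy : y * conj y = ((5 : ℤ) : 𝓞 F)) : ¬ Associated x y := by
  rintro ⟨u, hu⟩
  obtain ⟨a, ha⟩ := exists_norm (u : 𝓞 F)
  have h1 := norm_mul hx ha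
  rw [hu] at h1
  have h2 := norm_unique hy h1
  omega

theorem ne_mul_sq {x y : 𝓞 F} {a b : ℤ} (hx : x * conj x = a) (hy : y * conj y = b)
    (h : ∀ n : ℤ, a ≠ b * n ^ 2) (η : 𝓞 F) : x ≠ y * η ^ 2 := by
  intro hxy
  obtain ⟨c, hc⟩ := exists_norm η
  have h1 := norm_mul hy (norm_mul hc hc)
  rw [← pow_two η, ← hxy] at h1
  exact h c (by rw [norm_unique hx h1]; ring)

theorem sq_cases (n : ℤ) : (5 : ℤ) ≠ 10 * n ^ 2 ∧ (10 : ℤ) ≠ 5 * n ^ 2 := by
  constructor
  · omega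
  · intro h
    have h1 : n ^ 2 = 2 := by omega
    have h2 : n < 2 := by nlinarith
    have h3 : -2 < n := by nlinarith
    interval_cases n <;> omega

theorem admissible : Admissible conj α β := by
  refine ⟨indecomposable_α, indecomposable_β, not_associated norm_β norm_α,
    not_associated norm_β (norm_conj norm_α), fun η => ⟨?_, ?_, ?_, ?_⟩⟩
  · exact ne_mul_sq norm_β norm_α (fun n => (sq_cases n).2) η
  · exact ne_mul_sq norm_β (norm_conj norm_α) (fun n => (sq_cases n).2) η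
  · exact ne_mul_sq norm_α norm_β (fun n => (sq_cases n).1) η
  · exact ne_mul_sq norm_α (norm_conj norm_β) (fun n => (sq_cases n).1) η

theorem conj_ne : conj ≠ RingEquiv.refl (𝓞 F) := by
  intro h
  have h1 : conj τ = τ := by rw [h]; rfl
  have h2 := congrArg (fun x : 𝓞 F => (x : F).im) h1
  simp only [coe_conj, conjF_apply, coe_τ] at h2
  norm_num at h2

theorem equiv_forms (x y : 𝓞 F) : form conj β 3 x y =
    form conj α 2 ((-2 - τ) * x + (11 - 3 * τ) * y) ((27 + 10 * τ) * x + 1 * y) := by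
  unfold form
  rw [conj_α, conj_β, α, β]
  push_cast
  have h2 : τ ^ 2 = τ + 10 := τ_sq
  have h3 : τ ^ 3 = 11 * τ + 10 := by
    rw [pow_succ, h2, add_mul, ← pow_two, h2]; ring
  ring_nf
  rw [h3, h2]
  ring

/-- **The forms can be equivalent.** There are a real quadratic field `K`, an admissible pair
`(α, β)` in `K` and nonzero integers `m`, `n` with `m² < N(α)`, `n² < N(β)` such that `Q_{α,m}` and
`Q_{β,n}` are equivalent over the ring of integers of `K`. -/
theorem result : ∃ (K : Type) (_ : Field K) (_ : NumberField K) (σ : 𝓞 K ≃+* 𝓞 K) (α β : 𝓞 K)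
    (m n a b : ℤ),
    -- `K` is a real quadratic field, and `σ` is the nontrivial automorphism
    Module.finrank ℚ K = 2 ∧ Nonempty (K →+* ℝ) ∧ σ ≠ RingEquiv.refl (𝓞 K) ∧
    Admissible σ α β ∧
    -- `a` and `b` are the norms of `α` and `β`
    α * σ α = a ∧ β * σ β = b ∧ m ≠ 0 ∧ n ≠ 0 ∧ m ^ 2 < a ∧ n ^ 2 < b ∧
    -- the forms are equivalent
    ∃ A : GL (Fin 2) (𝓞 K), ∀ x y : 𝓞 K,
      form σ β n x y = form σ α m (A 0 0 * x + A 0 1 * y) (A 1 0 * x + A 1 1 * y) := by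
  have hdet : Matrix.det !![(-2 - τ : 𝓞 F), 11 - 3 * τ; 27 + 10 * τ, 1] = 1 := by
    rw [Matrix.det_fin_two_of]
    linear_combination (30 : 𝓞 F) * τ_sq
  refine ⟨F, inferInstance, inferInstance, conj, α, β, 2, 3, 5, 10, finrank_F,
    ⟨emb √41 (Real.mul_self_sqrt (by norm_num))⟩, conj_ne, admissible, norm_α, norm_β, by norm_num,
    by norm_num, by norm_num, by norm_num,
    Matrix.GeneralLinearGroup.mk'' _ (by rw [hdet]; exact isUnit_one), fun x y => ?_⟩
  rw [equiv_forms x y]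
  rfl

end Pool.Agent.Results.MP_d6b6f7_nt.EquivalentForms
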